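import Pool.Agent.Helper5.LCU.Stmts

set_option autoImplicit false

open Finset Pool.Agent.Helper89.UB Pool.Agent.Helper5.LCU

namespace Pool.Agent.Helper83.LCU

/-- a log-concave sequence of natural numbers without internal zeros is unimodal -/
theorem unimodal_aux (p : ℕ → ℕ) (w n : ℕ) (h0 : ∀ m, m < w → p m = 0)
    (h : ∀ i j, i ≤ j → p (w + i) * p (w + (j + 2)) ≤ p (w + (i + 1)) * p (w + (j + 1))) :
    ∃ k : ℕ, (∀ i j : ℕ, 1 ≤ i → i ≤ j → j ≤ k → p i ≤ p j) ∧
      (∀ i j : ℕ, k ≤ i → i ≤ j → j ≤ n → p j ≤ p i) := by
  classical
  by_cases hd : ∃ t, p (w + (t + 1)) < p (w + t)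
  · obtain ⟨t, ht, hmin⟩ : ∃ t, p (w + (t + 1)) < p (w + t) ∧
        ∀ u, u < t → ¬ p (w + (u + 1)) < p (w + u) :=
      ⟨Nat.find hd, Nat.find_spec hd, fun u hu => Nat.find_min hd hu⟩
    refine ⟨w + t, ?_, ?_⟩
    · intro i j _ hij hj
      rcases lt_or_ge i w with hi | hi
      · rw [h0 i hi]
        exact Nat.zero_le _
      · have key : ∀ d, i + d ≤ w + t → p i ≤ p (i + d) := by
          intro d
          induction d with
          | zero => intro _; exact le_refl _
          | succ d ih =>
            intro hd'
            refine (ih (by omega)).trans ?_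
            have := hmin (i + d - w) (by omega)
            rw [show w + (i + d - w + 1) = i + (d + 1) by omega,
              show w + (i + d - w) = i + d by omega] at this
            omega
        have := key (j - i) (by omega)
        rwa [show i + (j - i) = j by omega] at this
    · intro i j hi hij _
      have step : ∀ u, t ≤ u → p (w + (u + 1)) ≤ p (w + u) := by
        intro u hu
        rcases Nat.eq_or_lt_of_le hu with h1 | h1
        · rw [← h1]
          exact ht.le
        · have h2 := h t (u - 1) (by omega)
          rw [show u - 1 + 2 = u + 1 by omega, show u - 1 + 1 = u by omega] at h2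
          have h3 : p (w + (t + 1)) * p (w + u) ≤ p (w + t) * p (w + u) :=
            Nat.mul_le_mul_right _ ht.le
          exact Nat.le_of_mul_le_mul_left (h2.trans h3) (by omega)
      have key : ∀ d, p (i + d) ≤ p i := by
        intro d
        induction d with
        | zero => exact le_refl _
        | succ d ih =>
          refine le_trans ?_ ih
          have := step (i + d - w) (by omega)
          rwa [show w + (i + d - w + 1) = i + (d + 1) by omega,
            show w + (i + d - w) = i + d by omega] at this
      have := key (j - i)
      rwa [show i + (j - i) = j by omega] at this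
  · push Not at hd
    refine ⟨w + n, ?_, ?_⟩
    · intro i j _ hij hj
      rcases lt_or_ge i w with hi | hi
      · rw [h0 i hi]
        exact Nat.zero_le _
      · have key : ∀ d, p i ≤ p (i + d) := by
          intro d
          induction d with
          | zero => exact le_refl _
          | succ d ih =>
            refine ih.trans ?_
            have := hd (i + d - w)
            rwa [show w + (i + d - w + 1) = i + (d + 1) by omega,
              show w + (i + d - w) = i + d by omega] at this
        have := key (j - i)
        rwa [show i + (j - i) = j by omega] at this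
    · intro i j hi hij hj
      have : i = j := by omega
      rw [this]

theorem st_FIN (hLNS : ST_LNS) (hZB : ST_ZB) : ST_FIN := by
  intro n E hG
  obtain ⟨w, ⟨K, hKS, hK, hKw⟩, -, hlc⟩ := hG
  refine unimodal_aux (pn E univ) w n ?_ ?_
  · intro m hm
    have h1 := hZB n E univ K hKS hK m (by omega)
    have h2 := hLNS n E univ m
    rw [h1] at h2
    rcases Nat.mul_eq_zero.1 h2 with h | h
    · exact h
    · exact absurd h m.factorial_ne_zero
  · intro i j hij
    have h1 := hlc i j hij
    have h2 : (i + 1).factorial = (i + 1) * i.factorial := Nat.factorial_succ i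
    have h3 : (j + 2).factorial = (j + 2) * (j + 1).factorial := Nat.factorial_succ (j + 1)
    have h4 : (i.factorial * (j + 1).factorial) *
        ((j + 2) * (pn E univ (w + i) * pn E univ (w + (j + 2)))) ≤
        (i.factorial * (j + 1).factorial) *
          ((i + 1) * (pn E univ (w + (i + 1)) * pn E univ (w + (j + 1)))) := by
      rw [h2, h3] at h1
      calc _ = i.factorial * pn E univ (w + i) *
            ((j + 2) * (j + 1).factorial * pn E univ (w + (j + 2))) := by ring
        _ ≤ _ := h1
        _ = _ := by ring
    have h5 := Nat.le_of_mul_le_mul_left h4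
      (Nat.mul_pos i.factorial_pos (j + 1).factorial_pos)
    have h6 : (i + 1) * (pn E univ (w + (i + 1)) * pn E univ (w + (j + 1))) ≤
        (j + 2) * (pn E univ (w + (i + 1)) * pn E univ (w + (j + 1))) :=
      Nat.mul_le_mul_right _ (by omega)
    exact Nat.le_of_mul_le_mul_left (h5.trans h6) (by omega)

end Pool.Agent.Helper83.LCU
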